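import Pool.Agent.LibFlagPL.Main
import Pool.Agent.LibFlagPL.EG

/-!
# MP_41cbfb_co, Q1 (Lutz-Nevo): flag PL spheres with `gamma_2 = 0` reduce to the cross-polytope

Main result: for every `d ≥ 4`, a flag PL sphere `K` of dimension `d - 1` has a gamma vector `g`, and `K`
reduces to the boundary of the `d`-dimensional cross-polytope by a chain of edge contractions as in Q1
if and only if `g 2 = 0`.  The direction from right to left is the affirmative answer to Q1, for every
`d ≥ 4`.

All definitions used in the statement are in `Pool.Agent.LibFlagPL.SphereDefs`:
* `Fam`, `IsCx`: finite simplicial complexes (finite families of finite sets of naturals);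
* `Flag`, `link`, `contr` (edge contraction), `Iso`, `cross d` (boundary of the `d`-dimensional
  cross-polytope), `bds d` (boundary of the `d`-simplex);
* `stell`, `StStep`, `StEq`, `SPL d`: stellar subdivisions, stellar equivalence, PL spheres of
  dimension `d - 1` (stellar equivalent to `bds d`; this is the same as PL homeomorphic by
  Alexander and Newman);
* `fnum`, `hpoly`, `IsGamma`: face numbers, `h`-polynomial, gamma vector;
* `SReduces d K`: the chain of edge contractions of Q1 (all complexes flag PL spheres, links of the
  contracted edges isomorphic to `cross (d - 2)`, last complex isomorphic to `cross d`).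
-/

namespace Pool.Agent.Results.MP_41cbfb_co.LutzNevo

open Pool.Agent.LibFlagPL

/-- For every `d ≥ 4`, a `(d - 1)`-dimensional flag PL sphere `K` has a gamma vector, and if `g` is the
gamma vector of `K`, then `K` reduces to the boundary of the cross-polytope by edge contractions as in
Q1 if and only if `g 2 = 0`. -/
theorem result {d : ℕ} (hd : 4 ≤ d) {K : Fam} (hflag : Pool.Agent.LibFlagPL.Flag K)
    (hPL : SPL d K) :
    (∃ g : ℕ → ℤ, IsGamma d K g) ∧
      ∀ g : ℕ → ℤ, IsGamma d K g → (SReduces d K ↔ g 2 = 0) :=
  ⟨exists_gamma hPL, fun _ hg => main_gamma2_iff hd hflag hPL hg⟩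

end Pool.Agent.Results.MP_41cbfb_co.LutzNevo
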